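import Pool.Agent.Helper45.M.INT
import Pool.Agent.Helper97.TW.Defs

/-!
# Project TW, block INT2 (`StmtINT` with a level `N`)
-/

set_option autoImplicit false

namespace Pool.Agent.TW

open VC IntermediateField NumberField IsDedekindDomain Pool.Agent.SC Pool.Agent.L
open Pool.Agent.M hiding StmtINT
open Pool.Agent.HG (Pr nm IsOdd)

/-- **BLOCK INT2.** -/
theorem int2 (hLM : Pool.Agent.M.StmtLM) (hFT : Pool.Agent.M.StmtFT) (hCOC : Pool.Agent.M.StmtCOC)
    (hNR : Pool.Agent.M.StmtNR) (hAR : StmtAR) : StmtINT2 := by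
  classical
  intro k K0 E U _ _ _ _ _ _ _ _ _ _ _ _ h r geo m Z hm zz hzz
  have hcl : IsAlgClosed E := geo.clE
  have halg : Algebra.IsAlgebraic k E := geo.algE
  have hch : CharZero E := charZero_of_injective_algebraMap (algebraMap k E).injective
  have hchU : CharZero U := charZero_of_injective_algebraMap (algebraMap E U).injective
  have hac : IsAlgClosure k E := ⟨hcl, halg⟩
  have hgal : IsGalois k E := IsAlgClosure.isGalois k E
  have hF := geo.ff
  have hnor : Normal K0 U := geo.normal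
  have hint : ∀ x : U, IsIntegral K0 x := fun x => hnor.isIntegral x
  obtain ⟨-, hBfin, hNRc⟩ := hNR k K0 E U h r geo
  -- the finite set of branch points
  let BF : Finset (Place E (L0 E K0 (U := U))) := hBfin.toFinset
  have hBF : ∀ b, b ∈ BF ↔ BPl h b := fun b => hBfin.mem_toFinset
  obtain ⟨Z2, hZ2⟩ := NN_fin hFT hF (n := 2 ^ m) (by positivity)
  let Z1 : Finset U := (BF ×ˢ BF).image fun π => zz π.1 π.2
  have hZ1 : ∀ b b', BPl h b → BPl h b' → zz b b' ∈ Z1 := fun b b' hb hb' =>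
    Finset.mem_image.2 ⟨(b, b'), Finset.mem_product.2 ⟨(hBF b).2 hb, (hBF b').2 hb'⟩, rfl⟩
  obtain ⟨N, hMN, hNff, hZN, hNst, Bad, hBad, hloc⟩ := hLM k K0 E U h r geo ((Z1 ∪ Z2) ∪ Z)
  have hLN : L0 E K0 (U := U) ≤ N :=
    (adjoin.mono E _ _ Set.subset_union_left).trans hMN
  have hrN : r ∈ N := hMN (subset_adjoin _ _ (Or.inr rfl))
  have hNNN : NN E K0 (2 ^ m) ≤ N := hZ2 N hLN fun z hz => hZN z (Finset.mem_union_left _ (Finset.mem_union_right _ hz))
  have hNN2 : NN E K0 2 ≤ NN E K0 (2 ^ m) (U := U) := by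
    refine adjoin_le_iff.2 ?_
    rintro w (⟨x, rfl⟩ | hw)
    · exact subset_adjoin _ _ (Or.inl ⟨x, rfl⟩)
    · exact (UR.two_pow hF hm hw).mem
  have hKL : ∀ x : K0, algebraMap K0 U x ∈ L0 E K0 (U := U) := fun x =>
    subset_adjoin _ _ ⟨x, rfl⟩
  refine ⟨N, ⟨hNff, fun x => hLN (hKL x), hNst⟩, hMN,
    fun z hz => hZN z (Finset.mem_union_right _ hz), ?_⟩
  intro c₁ Φ₁ hc₁ hΦ₁
  obtain ⟨-, hBPl, -, hst⟩ := hNRc c₁ Φ₁ hc₁ hΦ₁
  have hhord : ∀ b, BPl h b ↔ ¬ (2 : ℤ) ∣ ord b.ring (inL0 (E := E) (U := U) h) := fun b => Iff.rfl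
  have hr0 : r ≠ 0 := by
    rintro rfl
    exact geo.rnot (zero_mem _)
  have hh0 : (inL0 h : L0 E K0 (U := U)) ≠ 0 := by
    intro h0
    have h1 : algebraMap K0 U h = 0 := congrArg (fun t : L0 E K0 (U := U) => (t : U)) h0
    rw [← geo.rsq] at h1
    exact pow_ne_zero 2 hr0 h1
  -- constants for the inertia
  have hCn : ∀ π : Place E (L0 E K0 (U := U)) × Place E (L0 E K0 (U := U)) ×
      Place E (L0 E K0 (U := U)), ∃ C : Finset E, BPl h π.1 → BPl h π.2.1 → BPl h π.2.2 →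
      π.2.1 ≠ π.2.2 → ∀ N : IntermediateField E U,
      L0 E K0 (U := U) ≤ N → r ∈ N → zz π.2.1 π.2.2 ∈ N → ∀ Q : Place E N, OverPl π.1 Q →
      ∀ (σ : E ≃+* E) (T : U ≃+* U), Semi K0 σ T → Moves T N Q Q → (∀ e ∈ C, σ e = e) →
      ((π.1 ≠ π.2.1 → π.1 ≠ π.2.2 → ∀ s : ℤˣ,
        T (zz π.2.1 π.2.2) = ((s : ℤ) : U) * zz π.2.1 π.2.2 → s = 1) ∧
      ((π.1 = π.2.1 ∨ π.1 = π.2.2) → ∀ s : ℤˣ,
        T (r * zz π.2.1 π.2.2) = ((s : ℤ) : U) * (r * zz π.2.1 π.2.2) → s = 1)) := by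
    rintro ⟨b₀, b, b'⟩
    by_cases hb : BPl h b₀ ∧ BPl h b ∧ BPl h b' ∧ b ≠ b'
    · obtain ⟨hb0, hb1, hb2, hne⟩ := hb
      obtain ⟨hz0, f, hf, hord⟩ := hzz b b' hb1 hb2 hne
      have hf0 : f ≠ 0 := by
        rintro rfl
        exact pow_ne_zero 2 hz0 hf.symm
      by_cases hcase : b₀ = b ∨ b₀ = b'
      · have hdiv : (2 : ℤ) ∣ ord b₀.ring (inL0 h * f) := by
          rw [FF.ord_mul hF b₀ hh0 hf0]
          have h1 := (hhord b₀).1 hb0
          have h2 := (hord b₀).2 hcase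
          omega
        obtain ⟨C, hC⟩ := inert_sign hF b₀ (mul_ne_zero hh0 hf0) hdiv
        refine ⟨C, fun _ _ _ _ N hLN hrN hzN Q hQ σ T hT hm hσ => ⟨fun h1 h2 => ?_, fun _ s hs => ?_⟩⟩
        · rcases hcase with h3 | h3
          · exact absurd h3 h1
          · exact absurd h3 h2
        · refine hC (r * zz b b') ?_ N hLN (mul_mem hrN hzN) Q hQ σ T hT hm hσ s hs
          rw [mul_pow, ← hf, geo.rsq]
          rfl
      · have hdiv : (2 : ℤ) ∣ ord b₀.ring f := by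
          by_contra h1
          exact hcase ((hord b₀).1 h1)
        obtain ⟨C, hC⟩ := inert_sign hF b₀ hf0 hdiv
        refine ⟨C, fun _ _ _ _ N hLN hrN hzN Q hQ σ T hT hm hσ =>
          ⟨fun _ _ s hs => ?_, fun h1 => absurd h1 hcase⟩⟩
        exact hC (zz b b') hf.symm N hLN hzN Q hQ σ T hT hm hσ s hs
    · exact ⟨∅, fun h1 h2 h3 h4 => absurd ⟨h1, h2, h3, h4⟩ hb⟩
  choose Cn hCn using hCn
  have hCs : ∀ b : Place E (L0 E K0 (U := U)), ∃ C : Finset E, ∀ g : E ≃ₐ[k] E,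
      (∀ e ∈ C, g e = e) → Moves (Φ₁ g) _ b b := by
    intro b
    obtain ⟨L, hL, hLb⟩ := hst b
    obtain ⟨C, hC⟩ := fix_findim L hL
    exact ⟨C, fun g hg => hLb g (hC g hg)⟩
  choose Cs hCs using hCs
  obtain ⟨d₁, hd₁⟩ := IsAlgClosed.exists_pow_nat_eq (algebraMap k E c₁) two_pos
  let Ctot : Finset E := insert d₁ (BF.biUnion Cs ∪ (BF ×ˢ (BF ×ˢ BF)).biUnion Cn)
  obtain ⟨Bad2, hBad2, hAR2⟩ := hAR k E ∅ Ctot (by simp)
  have hS₁ : ∀ g, Semi K0 (g : E ≃ₐ[k] E).toRingEquiv (Φ₁ g) := semi_act hΦ₁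
  -- the action on the places
  let mv : (E ≃ₐ[k] E) → Place E (L0 E K0 (U := U)) → Place E (L0 E K0 (U := U)) := fun g b =>
    (hS₁ g).im b
  have hmv : ∀ g b b', Moves (Φ₁ g) _ b b' ↔ mv g b = b' := fun g b b' => (hS₁ g).moves_iff b b'
  have hmvB : ∀ g b, BPl h b ↔ BPl h (mv g b) := fun g b =>
    hBPl g b _ ((hmv g b _).2 rfl)
  have hmv1 : ∀ b, mv 1 b = b := by
    intro b
    rw [← hmv, map_one]
    exact moves_one b
  have hmvmul : ∀ g g' b, mv (g * g') b = mv g (mv g' b) := by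
    intro g g' b
    rw [← hmv, map_mul]
    exact moves_comp (hS₁ g').L0_map ((hmv g' b _).2 rfl) ((hmv g _ _).2 rfl)
  have hmvinj : ∀ g b b', mv g b = mv g b' → b = b' := fun g b b' hb => (hS₁ g).im_inj hb
  refine ⟨Bad ∪ Bad2, hBad.union hBad2, ?_⟩
  intro c Φ hc hΦ hagree
  have hS : ∀ g, Semi K0 (g : E ≃ₐ[k] E).toRingEquiv (Φ g) := semi_act hΦ
  have hagN : ∀ g, ∀ x ∈ NN E K0 (2 ^ m) (U := U), Φ g x = Φ₁ g x := by
    intro g
    refine eq_on_adjoin (fun e => by rw [hΦ.const, hΦ₁.const]) ?_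
    rintro x (⟨y, rfl⟩ | hx)
    · rw [hΦ.fixK, hΦ₁.fixK]
    · exact hagree g x hx
  have hagL : ∀ g, ∀ x ∈ L0 E K0 (U := U), Φ g x = Φ₁ g x := fun g => (hS g).eq_on_L0 (hS₁ g)
  -- the signs
  let ε : (E ≃ₐ[k] E) → Place E (L0 E K0 (U := U)) → Place E (L0 E K0 (U := U)) → ℤˣ :=
    fun g b b' => if Φ g (zz b b') = Φ₁ g (zz b b') then 1 else -1
  have hε : ∀ g b b', BPl h b → BPl h b' → b ≠ b' →
      Φ g (zz b b') = ((ε g b b' : ℤ) : U) * Φ₁ g (zz b b') := by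
    intro g b b' hb hb' hne
    rcases sign_of_sq (hS g) (hS₁ g) (hzz b b' hb hb' hne).sq_mem with h1 | h1
    · have h2 : ε g b b' = 1 := if_pos h1
      rw [h2, h1]; simp
    · have h2 : ε g b b' = -1 := by
        refine if_neg fun h3 => ?_
        have h4 : Φ₁ g (zz b b') ≠ 0 :=
          (map_ne_zero_iff (Φ₁ g) (Φ₁ g).injective).2 (hzz b b' hb hb' hne).1
        rw [h3] at h1
        have h5 : (2 : U) * Φ₁ g (zz b b') = 0 := by linear_combination h1
        rcases mul_eq_zero.1 h5 with h6 | h6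
        · exact two_ne_zero h6
        · exact h4 h6
      rw [h2, h1]; simp
  have hεu : ∀ g b b', BPl h b → BPl h b' → b ≠ b' → ∀ s : ℤˣ,
      Φ g (zz b b') = ((s : ℤ) : U) * Φ₁ g (zz b b') → ε g b b' = s := by
    intro g b b' hb hb' hne s hs
    have h1 := hε g b b' hb hb' hne
    have h4 : Φ₁ g (zz b b') ≠ 0 :=
      (map_ne_zero_iff (Φ₁ g) (Φ₁ g).injective).2 (hzz b b' hb hb' hne).1
    rw [hs] at h1
    have h2 : ((s : ℤ) : U) = ((ε g b b' : ℤ) : U) := mul_right_cancel₀ h4 h1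
    have h3 : (s : ℤ) = (ε g b b' : ℤ) := by exact_mod_cast h2
    exact (Units.ext h3).symm
  -- the cocycle relation
  have hcoc : ∀ g g' b b', BPl h b → BPl h b' → b ≠ b' →
      ε (g * g') b b' = ε g' b b' * ε g (mv g' b) (mv g' b') := by
    intro g g' b b' hb hb' hne
    have hb1 : BPl h (mv g' b) := (hmvB g' b).1 hb
    have hb1' : BPl h (mv g' b') := (hmvB g' b').1 hb'
    have hne1 : mv g' b ≠ mv g' b' := fun h1 => hne (hmvinj g' _ _ h1)
    refine hεu _ b b' hb hb' hne _ ?_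
    obtain ⟨w, hw⟩ : ∃ w : U, w = Φ₁ g' (zz b b') * (zz (mv g' b) (mv g' b'))⁻¹ := ⟨_, rfl⟩
    have hwR : UR E K0 2 w := by
      rw [hw]
      exact ((hzz b b' hb hb' hne).map hF (hS₁ g')).div hF (hzz _ _ hb1 hb1' hne1)
    have hz0 := (hzz _ _ hb1 hb1' hne1).1
    have h1 : Φ₁ g' (zz b b') = w * zz (mv g' b) (mv g' b') := by
      rw [hw]; field_simp
    have h2 : Φ g w = Φ₁ g w := hagree g w (UR.two_pow hF hm hwR)
    rw [map_mul, map_mul]
    show Φ g (Φ g' (zz b b')) = _ * Φ₁ g (Φ₁ g' (zz b b'))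
    rw [hε g' b b' hb hb' hne, map_mul, map_intCast, h1, map_mul, map_mul, h2,
      hε g _ _ hb1 hb1' hne1]
    push_cast
    ring
  -- the set with action
  let Br : Type := {b : Place E (L0 E K0 (U := U)) // BPl h b}
  have hBrfin : Finite Br := hBfin
  let S : Type := {π : Br × Br // π.1 ≠ π.2}
  have hSfin : Finite S := Subtype.finite
  let _ : MulAction (E ≃ₐ[k] E) S :=
    { smul := fun g π => ⟨(⟨mv g π.1.1.1, (hmvB g _).1 π.1.1.2⟩,
        ⟨mv g π.1.2.1, (hmvB g _).1 π.1.2.2⟩), fun h1 => π.2 (Subtype.ext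
          (hmvinj g _ _ (congrArg (fun t : Br => t.1) h1)))⟩
      one_smul := fun π => by
        apply Subtype.ext
        exact Prod.ext (Subtype.ext (hmv1 _)) (Subtype.ext (hmv1 _))
      mul_smul := fun g g' π => by
        apply Subtype.ext
        exact Prod.ext (Subtype.ext (hmvmul g g' _)) (Subtype.ext (hmvmul g g' _)) }
  have hsm1 : ∀ (g : E ≃ₐ[k] E) (π : S), (g • π).1.1.1 = mv g π.1.1.1 := fun _ _ => rfl
  have hsm2 : ∀ (g : E ≃ₐ[k] E) (π : S), (g • π).1.2.1 = mv g π.1.2.1 := fun _ _ => rfl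
  have hneS : ∀ π : S, π.1.1.1 ≠ π.1.2.1 := fun π h1 => π.2 (Subtype.ext h1)
  obtain ⟨δ', hδ0, hδ⟩ := hCOC k E S (fun g π => ε g π.1.1.1 π.1.2.1)
    (fun g g' π => hcoc g g' _ _ π.1.1.2 π.1.2.2 (hneS π)) (by
      intro π
      obtain ⟨L1, hL1, h1⟩ := hΦ.cont (zz π.1.1.1 π.1.2.1)
      obtain ⟨L2, hL2, h2⟩ := hΦ₁.cont (zz π.1.1.1 π.1.2.1)
      obtain ⟨L3, hL3, h3⟩ := hst π.1.1.1
      obtain ⟨L4, hL4, h4⟩ := hst π.1.2.1
      refine ⟨(L1 ⊔ L2) ⊔ (L3 ⊔ L4), inferInstance, fun g hg => ?_⟩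
      have g1 : ∀ x ∈ L1, g x = x := fun x hx => hg x (le_sup_left (a := L1 ⊔ L2)
        (le_sup_left (a := L1) hx))
      have g2 : ∀ x ∈ L2, g x = x := fun x hx => hg x (le_sup_left (a := L1 ⊔ L2)
        (le_sup_right (b := L2) hx))
      have g3 : ∀ x ∈ L3, g x = x := fun x hx => hg x (le_sup_right (b := L3 ⊔ L4)
        (le_sup_left (a := L3) hx))
      have g4 : ∀ x ∈ L4, g x = x := fun x hx => hg x (le_sup_right (b := L3 ⊔ L4)
        (le_sup_right (b := L4) hx))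
      refine ⟨hεu g _ _ π.1.1.2 π.1.2.2 (hneS π) 1 ?_, ?_⟩
      · rw [h1 g g1, h2 g g2]; simp
      · apply Subtype.ext
        exact Prod.ext (Subtype.ext ((hmv g _ _).1 (h3 g g3)))
          (Subtype.ext ((hmv g _ _).1 (h4 g g4))))
  -- the numbers `δ`
  let δ : Place E (L0 E K0 (U := U)) → Place E (L0 E K0 (U := U)) → E := fun b b' =>
    if hb : BPl h b ∧ BPl h b' ∧ b ≠ b' then
      δ' ⟨(⟨b, hb.1⟩, ⟨b', hb.2.1⟩), fun h1 => hb.2.2 (congrArg (fun t : Br => t.1) h1)⟩ else 1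
  have hδe : ∀ b b' (hb : BPl h b ∧ BPl h b' ∧ b ≠ b'), δ b b' =
      δ' ⟨(⟨b, hb.1⟩, ⟨b', hb.2.1⟩), fun h1 => hb.2.2 (congrArg (fun t : Br => t.1) h1)⟩ :=
    fun b b' hb => dif_pos hb
  have hδg : ∀ g b b', BPl h b → BPl h b' → b ≠ b' →
      g (δ b b') = ((ε g b b' : ℤ) : E) * δ (mv g b) (mv g b') := by
    intro g b b' hb hb' hne
    rw [hδe b b' ⟨hb, hb', hne⟩, hδe (mv g b) (mv g b') ⟨(hmvB g b).1 hb, (hmvB g b').1 hb',
      fun h1 => hne (hmvinj g _ _ h1)⟩]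
    exact hδ g _
  have hδne : ∀ b b', BPl h b → BPl h b' → b ≠ b' → δ b b' ≠ 0 := by
    intro b b' hb hb' hne
    rw [hδe b b' ⟨hb, hb', hne⟩]
    exact hδ0 _
  -- inertia fixes the branch points, and the reference action is trivial
  have hinert : ∀ v ∉ Bad ∪ Bad2, ∀ (O : ValuationSubring E) (F : E ≃ₐ[k] E) (p f : ℕ),
      DecPt v O F p f → ∀ τ : E ≃ₐ[k] E, Inert O τ.toRingEquiv →
      (∀ e ∈ Ctot, τ e = e) ∧ (∀ b, BPl h b → mv τ b = b) ∧
      ∀ b b', BPl h b → BPl h b' → Φ₁ τ (zz b b') = zz b b' := by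
    intro v hv O F p f hD τ hτ
    have hv1 : v ∉ Bad := fun h1 => hv (Or.inl h1)
    have hv2 : v ∉ Bad2 := fun h1 => hv (Or.inr h1)
    have h1 := (hAR2 v hv2 O hD.above).2 τ hτ
    refine ⟨h1, fun b hb => ?_, fun b b' hb hb' => ?_⟩
    · rw [← hmv]
      refine hCs b τ fun e he => h1 e ?_
      exact Finset.mem_insert_of_mem (Finset.mem_union_left _
        (Finset.mem_biUnion.2 ⟨b, (hBF b).2 hb, he⟩))
    · refine (hloc v hv1 c₁ hc₁ Φ₁ hΦ₁ O F p f hD).1 τ hτ ?_ _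
        (Finset.mem_union_left _ (Finset.mem_union_left _ (hZ1 b b' hb hb')))
      intro d hd
      have h2 : τ d₁ = d₁ := h1 d₁ (Finset.mem_insert_self _ _)
      have h3 : d = d₁ ∨ d = -d₁ := sq_eq_sq_iff_eq_or_eq_neg.1 (by rw [hd, hd₁])
      rcases h3 with rfl | rfl
      · exact h2
      · rw [map_neg, h2]
  refine ⟨δ, hδne, ?_, ?_, ?_⟩
  · -- eqv
    intro g b b' a a' hb hb' hne ha ha'
    rw [hmv] at ha ha'
    rw [map_pow, hδg g b b' hb hb' hne, ha, ha', mul_pow]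
    have h1 : ((ε g b b' : ℤ) : E) ^ 2 = 1 := by
      rw [pow_two, ← Int.cast_mul, Int.units_coe_mul_self, Int.cast_one]
    rw [h1, one_mul]
  · -- even
    intro v hv O F p f hD τ hτ hτd b b' hb hb' hne
    obtain ⟨h1, h2, h3⟩ := hinert v hv O F p f hD τ hτ
    have hv1 : v ∉ Bad := fun h1 => hv (Or.inl h1)
    have h4 := (hloc v hv1 c hc Φ hΦ O F p f hD).1 τ hτ hτd _
      (Finset.mem_union_left _ (Finset.mem_union_left _ (hZ1 b b' hb hb')))
    have h5 : ε τ b b' = 1 := hεu τ b b' hb hb' hne 1 (by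
      rw [h4, h3 b b' hb hb']; simp)
    rw [hδg τ b b' hb hb' hne, h5, h2 b hb, h2 b' hb']
    simp
  · -- odd
    intro v hv hodd O F p f hD
    have hv1 : v ∉ Bad := fun h1 => hv (Or.inl h1)
    obtain ⟨b₀, QN, hb₀, hbQ, hFQ, hτQ⟩ := (hloc v hv1 c hc Φ hΦ O F p f hD).2 hodd
    obtain ⟨P, hPQ⟩ := exists_down (K0 := K0) (hNN2.trans hNNN)
      (fun x => L0_le_NN 2 (hKL x)) hint QN
    obtain ⟨Q, hQQ⟩ := exists_down (K0 := K0) hNNN (fun x => L0_le_NN _ (hKL x)) hint QN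
    have hbP : OverPl b₀ P := fun x hx hx' => by
      rw [hbQ x hx (hLN hx), ← hPQ x hx' (hLN hx)]
    have hPQ' : OverPl P Q := fun x hx hx' => by
      rw [hPQ x hx (hNNN hx'), ← hQQ x hx' (hNNN hx')]
    have hF0 : Moves (Φ F) _ b₀ b₀ := moves_over hLN hbQ hbQ hFQ
    have hF1 : Moves (Φ F) _ Q Q := moves_over hNNN hQQ hQQ hFQ
    have hF2 : Moves (Φ F) _ P P := moves_over (hNN2.trans hNNN) hPQ hPQ hFQ
    refine ⟨b₀, P, Q, hb₀, hbP, hPQ', moves_congr (hagL F) hF0, moves_congr (hagN F) hF1, ?_, ?_, QN,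
      hbQ, hFQ, hτQ⟩
    · -- inertia
      intro τ hτ hτd b b' hb hb' hne
      obtain ⟨h1, h2, h3⟩ := hinert v hv O F p f hD τ hτ
      have hm' := hτQ τ hτ hτd
      have hzN : zz b b' ∈ N := hZN _ (Finset.mem_union_left _ (Finset.mem_union_left _ (hZ1 b b' hb hb')))
      have hCπ : ∀ e ∈ Cn (b₀, b, b'), τ.toRingEquiv e = e := by
        intro e he
        refine h1 e (Finset.mem_insert_of_mem (Finset.mem_union_right _
          (Finset.mem_biUnion.2 ⟨(b₀, b, b'), ?_, he⟩)))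
        exact Finset.mem_product.2 ⟨(hBF b₀).2 hb₀, Finset.mem_product.2
          ⟨(hBF b).2 hb, (hBF b').2 hb'⟩⟩
      obtain ⟨hA, hB⟩ := hCn (b₀, b, b') hb₀ hb hb' hne N hLN hrN hzN QN hbQ _ _ (hS τ) hm' hCπ
      have hz := hε τ b b' hb hb' hne
      rw [h3 b b' hb hb'] at hz
      have hδτ := hδg τ b b' hb hb' hne
      rw [h2 b hb, h2 b' hb'] at hδτ
      refine ⟨fun hcase => ?_, fun hn1 hn2 => ?_⟩
      · -- `Φ τ r = - r`
        obtain ⟨d, hd⟩ := IsAlgClosed.exists_pow_nat_eq (algebraMap k E c) two_pos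
        have hd0 : d ≠ 0 := by
          rintro rfl
          rw [zero_pow two_ne_zero] at hd
          exact hc ((map_eq_zero _).1 hd.symm)
        have hTr : Φ τ r = -r := by
          have h4 := hΦ.tw τ d hd
          rw [hτd d hd, map_neg] at h4
          have hd0' : algebraMap E U d ≠ 0 := (map_ne_zero _).2 hd0
          apply mul_right_cancel₀ hd0'
          linear_combination -h4
        have h5 : (-ε τ b b' : ℤˣ) = 1 := by
          refine hB ?_ _ ?_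
          · rcases hcase with h6 | h6
            · exact Or.inl h6.symm
            · exact Or.inr h6.symm
          · rw [map_mul, hTr, hz]
            push_cast
            ring
        have h6 : ε τ b b' = -1 := by rw [← h5, neg_neg]
        rw [hδτ, h6]
        simp
      · have h5 : ε τ b b' = 1 := hA (Ne.symm hn1) (Ne.symm hn2) _ hz
        rw [hδτ, h5]
        simp
    · -- the sign of Frobenius
      intro b b' hb hb' hne hn1 hn2 n hmb hmb'
      have hzN : zz b b' ∈ N := hZN _ (Finset.mem_union_left _ (Finset.mem_union_left _ (hZ1 b b' hb hb')))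
      have hNZN : NZ E K0 (zz b b') ≤ N := by
        refine adjoin_le_iff.2 ?_
        rintro w (hw | hw)
        · exact (hNN2.trans hNNN) (subset_adjoin _ _ hw)
        · have hw' : w = zz b b' := hw
          rw [hw']
          exact hzN
      obtain ⟨Q₀, hQ₀⟩ := exists_down (K0 := K0) hNZN
        (fun x => NN_le_NZ _ (L0_le_NN 2 (hKL x))) hint QN
      have hPQ₀ : OverPl P Q₀ := fun x hx hx' => by
        rw [hPQ x hx (hNZN hx'), ← hQ₀ x hx' (hNZN hx')]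
      rw [← map_pow] at hmb hmb'
      rw [hmv] at hmb hmb'
      have hFN : ∀ x ∈ N, Φ F x ∈ N := fun x hx =>
        hNst (Φ F) (hΦ.fixK F) (fun e => ⟨F e, hΦ.const F e⟩) x hx
      have hFn : Moves (Φ (F ^ n)) N QN QN := by
        rw [map_pow]
        exact moves_pow hFN hFQ n
      rw [hδg (F ^ n) b b' hb hb' hne, hmb, hmb', ← map_pow]
      congr 3
      symm
      refine sgn_eq hF (hzz b b' hb hb' hne) (Ne.symm hn1) (Ne.symm hn2) hbP hPQ₀ (hS₁ (F ^ n))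
        (hS (F ^ n)) hmb hmb' (fun x hx => hagN (F ^ n) x (hNN2 hx)) ?_ ?_ (hε (F ^ n) b b' hb hb'
          hne)
      · exact moves_congr (fun x hx => hagN (F ^ n) x (hNN2 hx))
          (moves_over (hNN2.trans hNNN) hPQ hPQ hFn)
      · exact moves_over hNZN hQ₀ hQ₀ hFn


end Pool.Agent.TW
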