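import Pool.Agent.Helper29.TW.LDefs

/-!
# Project TW, block LVF: finitely many actions
-/

set_option autoImplicit false

namespace Pool.Agent.TW

open VC Filter Topology NumberField IsDedekindDomain IntermediateField Pool.Agent.SC Pool.Agent.L
open Pool.Agent.HG (Pr nm IsOdd)

/-- the characters to `±1` separate the elements of a finite group of exponent two -/
theorem exists_sign_ne {A : Type*} [Group A] [Finite A] (hA : ∀ a : A, a * a = 1) {a : A}
    (ha : a ≠ 1) : ∃ χ : A →* ℤˣ, χ a ≠ 1 := by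
  let _ : CommGroup A := { (inferInstance : Group A) with
    mul_comm := fun x y => by
      have h1 := hA (x * y)
      have h2 : x⁻¹ = x := inv_eq_of_mul_eq_one_left (hA x)
      have h3 : y⁻¹ = y := inv_eq_of_mul_eq_one_left (hA y)
      have h4 : (x * y)⁻¹ = x * y := inv_eq_of_mul_eq_one_left h1
      rw [← h4, mul_inv_rev, h2, h3] }
  have hdvd : Monoid.exponent A ∣ 2 := Monoid.exponent_dvd_of_forall_pow_eq_one fun x => by
    rw [pow_two]; exact hA x
  have hne : Monoid.exponent A ≠ 1 := by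
    intro h1
    have h2 := Monoid.pow_exponent_eq_one a
    rw [h1, pow_one] at h2
    exact ha h2
  have h2 : Monoid.exponent A = 2 := by
    rcases (Nat.dvd_prime Nat.prime_two).1 hdvd with h | h
    · exact absurd h hne
    · exact h
  have hroot : HasEnoughRootsOfUnity ℤ (Monoid.exponent A) := by
    rw [h2]
    exact { prim := ⟨-1, by
              have := IsPrimitiveRoot.neg_one (R := ℤ) 0 (by norm_num)
              exact this⟩
            cyc := inferInstance }
  exact CommGroup.exists_apply_ne_one_of_hasEnoughRootsOfUnity A ℤ ha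

/-- **BLOCK LVF.** -/
theorem lvf (hHF : Pool.Agent.M.StmtHF) : StmtLVF := by
  classical
  intro k E _ _ _ _ _ _ P _ A hA L hL Bad hBad
  have hch : CharZero E := charZero_of_injective_algebraMap (algebraMap k E).injective
  have hac : IsAlgClosure k E := ⟨inferInstance, inferInstance⟩
  have hgal : IsGalois k E := IsAlgClosure.isGalois k E
  have hS := hHF k E L hL Bad hBad
  have hSfin := hS.to_subtype
  -- the common kernel of the characters
  let M0 : Subgroup L.fixingSubgroup := ⨅ χ : {χ : L.fixingSubgroup →* ℤˣ |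
      (∃ L' : IntermediateField k E, FiniteDimensional k L' ∧
        ∀ g : L.fixingSubgroup, (∀ x ∈ L', (g : E ≃ₐ[k] E) x = x) → χ g = 1) ∧
      ∀ v ∉ Bad, ∀ O : ValuationSubring E, OverV v O → ∀ τ : L.fixingSubgroup,
        Inert O (τ : E ≃ₐ[k] E).toRingEquiv → χ τ = 1}, (χ : L.fixingSubgroup →* ℤˣ).ker
  have hM0 : M0.FiniteIndex := Subgroup.finiteIndex_iInf fun χ => Subgroup.finiteIndex_ker _
  let M : Subgroup (E ≃ₐ[k] E) := M0.map L.fixingSubgroup.subtype
  have hLfix : L.fixingSubgroup.index ≠ 0 := by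
    rw [← L.finrank_eq_fixingSubgroup_index]
    exact Module.finrank_pos.ne'
  have hM : M.FiniteIndex := by
    constructor
    have h1 : M.index = M0.index * L.fixingSubgroup.index := Subgroup.index_map_subtype M0
    rw [h1]
    exact mul_ne_zero hM0.index_ne_zero hLfix
  have hAfin : Finite A := inferInstance
  have hker : ∀ ρ : (E ≃ₐ[k] E) →* Equiv.Perm P, (∃ c : k, Rep A L Bad c ρ) →
      ∀ g ∈ M, ρ g = 1 := by
    rintro ρ ⟨c, hρ⟩ g ⟨g0, hg0, rfl⟩
    have hmem : ∀ g : L.fixingSubgroup, ρ g ∈ A := fun g =>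
      hρ.mem g fun x hx => (IntermediateField.mem_fixingSubgroup_iff _ _).1 g.2 x hx
    let ρA : L.fixingSubgroup →* A := (ρ.comp L.fixingSubgroup.subtype).codRestrict A hmem
    by_contra hne
    have hne' : ρA g0 ≠ 1 := fun h1 => hne (congrArg Subtype.val h1)
    obtain ⟨χ, hχ⟩ := exists_sign_ne (A := A) (fun a => Subtype.ext (hA a a.2)) hne'
    apply hχ
    have hin : χ.comp ρA ∈ {χ : L.fixingSubgroup →* ℤˣ |
      (∃ L' : IntermediateField k E, FiniteDimensional k L' ∧
        ∀ g : L.fixingSubgroup, (∀ x ∈ L', (g : E ≃ₐ[k] E) x = x) → χ g = 1) ∧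
      ∀ v ∉ Bad, ∀ O : ValuationSubring E, OverV v O → ∀ τ : L.fixingSubgroup,
        Inert O (τ : E ≃ₐ[k] E).toRingEquiv → χ τ = 1} := by
      constructor
      · obtain ⟨L', hL', h1⟩ := hρ.cont
        refine ⟨L', hL', fun g hg => ?_⟩
        have h2 : ρA g = 1 := Subtype.ext (h1 g hg)
        rw [MonoidHom.comp_apply, h2, map_one]
      · intro v hv O hO τ hτ
        have h2 : ρA τ = 1 := Subtype.ext (hρ.unr v hv O hO τ hτ)
        rw [MonoidHom.comp_apply, h2, map_one]
    have h3 := (Subgroup.mem_iInf.1 hg0) ⟨χ.comp ρA, hin⟩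
    exact h3
  have hqfin : Finite ((E ≃ₐ[k] E) ⧸ M) := Subgroup.finite_quotient_of_finiteIndex
  refine Set.Finite.of_finite_image (f := fun (ρ : (E ≃ₐ[k] E) →* Equiv.Perm P)
    (q : (E ≃ₐ[k] E) ⧸ M) => ρ q.out) (Set.toFinite _) ?_
  intro ρ hρ ρ' hρ' heq
  ext1 g
  have h1 : ((QuotientGroup.mk g : (E ≃ₐ[k] E) ⧸ M)).out⁻¹ * g ∈ M := by
    rw [← QuotientGroup.eq]
    exact QuotientGroup.out_eq' _
  have h2 : ∀ ρ : (E ≃ₐ[k] E) →* Equiv.Perm P, (∃ c : k, Rep A L Bad c ρ) →
      ρ g = ρ ((QuotientGroup.mk g : (E ≃ₐ[k] E) ⧸ M)).out := by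
    intro ρ hρ
    have h3 := hker ρ hρ _ h1
    rw [map_mul, map_inv, inv_mul_eq_one] at h3
    exact h3.symm
  rw [h2 ρ hρ, h2 ρ' hρ']
  exact congrFun heq _

end Pool.Agent.TW
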